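import Pool.Agent.Helper43.AX.St

/-!
# AX module VC (MP_b3ce06_al): conjugation formulas with `v = aba`
-/

set_option autoImplicit false

namespace Pool.Agent.Helper22.AX

open Pool.Agent.Helper43.AX

private lemma conj_zpow' {G : Type} [Group G] (v t : G) (N : ℕ) (h : v⁻¹ * t * v = (t ^ N)⁻¹)
    (i : ℤ) : v⁻¹ * t ^ i * v = t ^ (-(N : ℤ) * i) := by
  have h1 : v⁻¹ * t ^ i * v = (v⁻¹ * t * v) ^ i := by
    have := (conj_zpow (a := v⁻¹) (b := t) (i := i))
    rw [inv_inv] at this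
    exact this.symm
  rw [h1, h, ← zpow_natCast, ← zpow_neg, ← zpow_mul]

private lemma tE_zpow {G : Type} [Group G] {L : Type} [CommRing L] (t : G) (x : Lˣ) (E : L → G)
    (h : ∀ c, t⁻¹ * E c * t = E ((x : L) * c)) (i : ℤ) :
    ∀ c, t ^ (-i) * E c * t ^ i = E (((x ^ i : Lˣ) : L) * c) := by
  have hinv : ∀ c, t * E c * t⁻¹ = E (((x⁻¹ : Lˣ) : L) * c) := by
    intro c
    have h1 := h (((x⁻¹ : Lˣ) : L) * c)
    rw [← mul_assoc, Units.mul_inv, one_mul] at h1
    rw [← h1]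
    group
  induction i using Int.induction_on with
  | zero => intro c; simp
  | succ n ih =>
    intro c
    have e1 : t ^ (-((n : ℤ) + 1)) * E c * t ^ ((n : ℤ) + 1)
        = t⁻¹ * (t ^ (-(n : ℤ)) * E c * t ^ (n : ℤ)) * t := by
      rw [neg_add, zpow_add, zpow_add, zpow_neg_one, zpow_one]
      have hc : t ^ (-(n : ℤ)) * t⁻¹ = t⁻¹ * t ^ (-(n : ℤ)) := by
        rw [← zpow_neg_one, ← zpow_add, ← zpow_add, add_comm]
      rw [hc]
      group
    rw [e1, ih c, h, ← mul_assoc, zpow_add, zpow_one, mul_comm (x : L), Units.val_mul]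
  | pred n ih =>
    intro c
    have e1 : t ^ (-(-(n : ℤ) - 1)) * E c * t ^ (-(n : ℤ) - 1)
        = t * (t ^ (-(-(n : ℤ))) * E c * t ^ (-(n : ℤ))) * t⁻¹ := by
      rw [sub_eq_add_neg (-(n : ℤ)) 1, neg_add, neg_neg (1 : ℤ), zpow_add, zpow_add, zpow_neg_one,
        zpow_one]
      have hc : t ^ (-(-(n : ℤ))) * t = t * t ^ (-(-(n : ℤ))) := by
        nth_rewrite 2 [← zpow_one t]
        nth_rewrite 3 [← zpow_one t]
        rw [← zpow_add, ← zpow_add, add_comm]
      rw [hc]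
      group
    rw [e1, ih c, hinv, ← mul_assoc, zpow_sub, zpow_one, Units.val_mul, mul_comm (((x⁻¹ : Lˣ) : L))]

private lemma lE_iter {G : Type} [Group G] {L : Type} [CommRing L] (l : G) (E : L → G)
    (σ : L ≃+* L) (h : ∀ c, l⁻¹ * E c * l = E (σ c)) (n : ℕ) :
    ∀ c, l ^ n * E c * (l ^ n)⁻¹ = E ((σ.symm^[n]) c) := by
  have hinv : ∀ c, l * E c * l⁻¹ = E (σ.symm c) := by
    intro c
    have h1 := h (σ.symm c)
    rw [RingEquiv.apply_symm_apply] at h1
    rw [← h1]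
    group
  induction n with
  | zero => intro c; simp
  | succ n ih =>
    intro c
    rw [Function.iterate_succ_apply, ← ih (σ.symm c), ← hinv c, pow_succ]
    group

/-- AX module VC -/
theorem hVC : StVC := by
  intro p q G _ a b t l L _ x E σ hC
  have hbr := hC.rel.braid
  have hvt := hC.rel.vt
  have hvv := hC.rel.vv
  have hone := hC.rd.one
  have hadd := hC.rd.add
  have htE := hC.rd.tE
  have hlE := hC.rd.lE
  obtain ⟨v, hv⟩ : ∃ v, v = a * b * a := ⟨_, rfl⟩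
  have hF : ∀ c, F1 a b E c = v * E c * v⁻¹ := by
    intro c; rw [hv]; rfl
  simp only [← hv] at hvt hvv hbr ⊢
  have hav : a * v = v * b := by
    calc a * v = a * (b * a * b) := by rw [hbr]
      _ = (a * b * a) * b := by group
      _ = v * b := by rw [hv]
  have hbv : b * v = v * a := by
    calc b * v = b * (a * b * a) := by rw [hv]
      _ = (b * a * b) * a := by group
      _ = v * a := by rw [← hbr]
  have hvav : v * a * v⁻¹ = b := by
    rw [← hbv]; group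
  have hZ := conj_zpow' v t (q ^ p) hvt
  have hT := tE_zpow t x E htE
  -- `t^(-i) v = v t^(N i)` etc.
  have hZ1 : ∀ i : ℤ, t ^ (-i) * v = v * t ^ (((q ^ p : ℕ) : ℤ) * i) := by
    intro i
    have h1 := hZ (-i)
    have h2 : t ^ (-i) * v = v * (v⁻¹ * t ^ (-i) * v) := by group
    rw [h2, h1]
    congr 2
    ring
  have hZ2 : ∀ i : ℤ, v⁻¹ * t ^ i = t ^ (-(((q ^ p : ℕ) : ℤ) * i)) * v⁻¹ := by
    intro i
    have h1 := hZ i
    have h2 : v⁻¹ * t ^ i = (v⁻¹ * t ^ i * v) * v⁻¹ := by group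
    rw [h2, h1]
    congr 2
    ring
  have hFT : ∀ (i : ℤ) (c : L), t ^ (-i) * F1 a b E c * t ^ i
      = F1 a b E (((x ^ (-((q ^ p : ℕ) : ℤ) * i) : Lˣ) : L) * c) := by
    intro i c
    have h3 := hT (-((q ^ p : ℕ) : ℤ) * i) c
    rw [hF, hF, ← h3]
    calc t ^ (-i) * (v * E c * v⁻¹) * t ^ i = (t ^ (-i) * v) * E c * (v⁻¹ * t ^ i) := by group
      _ = (v * t ^ (((q ^ p : ℕ) : ℤ) * i)) * E c * (t ^ (-(((q ^ p : ℕ) : ℤ) * i)) * v⁻¹) := by
          rw [hZ1, hZ2]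
      _ = v * (t ^ (-(-((q ^ p : ℕ) : ℤ) * i)) * E c * t ^ (-((q ^ p : ℕ) : ℤ) * i)) * v⁻¹ := by
          rw [neg_mul, neg_neg]
          simp only [mul_assoc]
  have hb : b = F1 a b E 1 := by
    rw [hF, hone, hvav]
  have h3 : ∀ i : ℤ, Pool.Agent.Helper43.GD.cj b t i
      = F1 a b E (((x ^ (-((q ^ p : ℕ) : ℤ) * i) : Lˣ) : L)) := by
    intro i
    unfold Pool.Agent.Helper43.GD.cj
    have h4 := hFT i 1
    rw [mul_one, ← hb] at h4
    exact h4
  refine ⟨?_, ?_, h3, ?_, ?_⟩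
  · intro c
    have h4 := hFT 1 c
    rw [zpow_neg_one, zpow_one, mul_one] at h4
    rw [h4]
    congr 3
    rw [zpow_neg, zpow_natCast, inv_pow]
  · intro c
    rw [hF]
    have h5 : v * (v * E c * v⁻¹) * v⁻¹ = (v * v) * E c * (v * v)⁻¹ := by group
    rw [h5, hvv]
    exact lE_iter l E σ hlE p c
  · intro i
    have h6 := hT i 1
    rw [mul_one, hone] at h6
    rw [← h6]
    unfold Pool.Agent.Helper43.GD.cj
    have h7 := hZ (-i)
    have h8 := hZ i
    have h9 : v⁻¹ * a * v = b := by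
      rw [mul_assoc, hav]; group
    calc v⁻¹ * (t ^ (-i) * a * t ^ i) * v
        = (v⁻¹ * t ^ (-i) * v) * (v⁻¹ * a * v) * (v⁻¹ * t ^ i * v) := by group
      _ = t ^ (-(-((q ^ p : ℕ) : ℤ) * i)) * b * t ^ (-((q ^ p : ℕ) : ℤ) * i) := by
          rw [h7, h8, h9, mul_neg]
  · intro i j
    rw [h3 i, h3 j, hF, hF]
    have hcomm : ∀ c d, E c * E d = E d * E c := by
      intro c d
      rw [← hadd, ← hadd, add_comm]
    have hfin : ∀ c d, v * E c * v⁻¹ * (v * E d * v⁻¹) = v * E d * v⁻¹ * (v * E c * v⁻¹) := by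
      intro c d
      calc v * E c * v⁻¹ * (v * E d * v⁻¹) = v * (E c * E d) * v⁻¹ := by group
        _ = v * (E d * E c) * v⁻¹ := by rw [hcomm]
        _ = v * E d * v⁻¹ * (v * E c * v⁻¹) := by group
    exact hfin _ _

end Pool.Agent.Helper22.AX
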